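import Mathlib

/-!
The topologization of Kuratowski-Painleve convergence on the closed subsets of the space of
metric measure spaces with the box metric is not Hausdorff (hence not metrizable).
-/

open Set Filter Topology MeasureTheory TopologicalSpace
open scoped ENNReal

namespace Pool.Agent.Results.MP_3b4475_gt.NotHausdorff

universe u

/-! ### Kuratowski-Painleve convergence and its topologization -/

section KP

variable {Y : Type u} [TopologicalSpace Y]

/-- The lower limit of a net of closed sets. -/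
def Li {ι : Type u} [Preorder ι] (a : ι → Closeds Y) : Set Y :=
  {x | ∀ U : Set Y, IsOpen U → x ∈ U → ∃ i, ∀ j, i ≤ j → ((a j : Set Y) ∩ U).Nonempty}

/-- The upper limit of a net of closed sets. -/
def Ls {ι : Type u} [Preorder ι] (a : ι → Closeds Y) : Set Y :=
  {x | ∀ U : Set Y, IsOpen U → x ∈ U → ∀ i, ∃ j, i ≤ j ∧ ((a j : Set Y) ∩ U).Nonempty}

/-- Kuratowski-Painleve convergence of a net of closed sets. -/
def KPConv {ι : Type u} [Preorder ι] (a : ι → Closeds Y) (A : Closeds Y) : Prop :=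
  Ls a ⊆ (A : Set Y) ∧ (A : Set Y) ⊆ Li a

variable (Y) in
/-- The topology `t` on the closed sets makes every Kuratowski-Painleve convergent net (indexed by
a nonempty directed preordered set) converge to its limit. -/
def Respects (t : TopologicalSpace (Closeds Y)) : Prop :=
  ∀ (ι : Type u) [Preorder ι] [IsDirectedOrder ι] [Nonempty ι] (a : ι → Closeds Y)
    (A : Closeds Y), KPConv a A → Tendsto a atTop (@nhds _ t A)

variable (Y) in
/-- The topologization of Kuratowski-Painleve convergence: the finest topology in which all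
Kuratowski-Painleve convergent nets converge to their limits (in Mathlib's order on topologies,
finer means smaller). -/
abbrev tauK : TopologicalSpace (Closeds Y) := sInf {t | Respects Y t}

theorem tauK_respects : Respects Y (tauK Y) := by
  intro ι _ _ _ a A h
  unfold tauK
  rw [nhds_sInf]
  rw [tendsto_iInf]
  intro t
  rw [tendsto_iInf]
  intro ht
  exact ht ι a A h

theorem tauK_finest {t : TopologicalSpace (Closeds Y)} (ht : Respects Y t) : tauK Y ≤ t :=
  sInf_le ht

/-- The abstract criterion. -/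
theorem not_t2_tauK (x0 : Y) (A : ℕ → Set Y) (U : ℕ → ℕ → Set Y)
    (hA : ∀ k, IsClosed (A k)) (hAanti : Antitone A) (hAinter : ⋂ k, A k = {x0})
    (hU : ∀ k n, IsOpen (U k n)) (hUmono : ∀ k, Monotone (U k)) (hUcov : ∀ k x, ∃ n, x ∈ U k n)
    (hmeet : ∀ V, IsOpen V → x0 ∈ V → ∃ K, ∀ k ≥ K, ∀ n, ((A k \ U k n) ∩ V).Nonempty) :
    ¬ @T2Space (Closeds Y) (tauK Y) := by
  intro hT2
  let C : ℕ → ℕ → Closeds Y := fun k n => ⟨A k \ U k n, (hA k).sdiff (hU k n)⟩
  let X0 : Closeds Y := ⟨{x0}, hAinter ▸ isClosed_iInter hA⟩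
  have hne : (⊥ : Closeds Y) ≠ X0 := by
    intro h
    have h1 : ((⊥ : Closeds Y) : Set Y) = X0 := congrArg _ h
    have h2 : x0 ∈ ((⊥ : Closeds Y) : Set Y) := by rw [h1]; exact mem_singleton x0
    exact h2
  obtain ⟨O1, O2, hO1, hO2, h1, h2, hdisj⟩ := @t2_separation (Closeds Y) (tauK Y) hT2 _ _ hne
  have : IsDirectedOrder (ULift.{u} ℕ) :=
    ⟨fun a b => ⟨⟨max a.down b.down⟩, ULift.down_le.1 (le_max_left _ _),
      ULift.down_le.1 (le_max_right _ _)⟩⟩
  -- first convergence
  have hconv1 : ∀ k, ∃ n, C k n ∈ O1 := by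
    intro k
    have hKP : KPConv (fun n : ULift.{u} ℕ => C k n.down) (⊥ : Closeds Y) := by
      constructor
      · intro x hx
        exfalso
        obtain ⟨n, hn⟩ := hUcov k x
        obtain ⟨j, hj, y, hy1, hy2⟩ := hx (U k n) (hU k n) hn ⟨n⟩
        have : n ≤ j.down := ULift.down_le.2 hj
        exact hy1.2 (hUmono k this hy2)
      · intro x hx
        exact hx.elim
    obtain ⟨n, hn⟩ := ((tauK_respects _ _ _ hKP).eventually_mem
      (@IsOpen.mem_nhds _ (tauK Y) _ _ hO1 h1)).exists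
    exact ⟨n.down, hn⟩
  choose n hn using hconv1
  have hKP : KPConv (fun k : ULift.{u} ℕ => C k.down (n k.down)) X0 := by
    constructor
    · intro x hx
      by_contra hne
      have : x ∉ ⋂ k, A k := by rw [hAinter]; exact hne
      rw [mem_iInter] at this
      push Not at this
      obtain ⟨K, hK⟩ := this
      obtain ⟨j, hj, y, hy1, hy2⟩ := hx (A K)ᶜ (hA K).isOpen_compl hK ⟨K⟩
      have : K ≤ j.down := ULift.down_le.2 hj
      exact hy2 (hAanti this hy1.1)
    · intro x hx V hV hxV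
      have hx' : x = x0 := hx
      rw [hx'] at hxV
      obtain ⟨K, hK⟩ := hmeet V hV hxV
      exact ⟨⟨K⟩, fun j hj => hK j.down (ULift.down_le.2 hj) _⟩
  obtain ⟨k, hk⟩ := ((tauK_respects _ _ _ hKP).eventually_mem
    (@IsOpen.mem_nhds _ (tauK Y) _ _ hO2 h2)).exists
  exact Set.disjoint_left.1 hdisj (hn k.down) hk

end KP

/-! ### mm-spaces and the box distance -/

/-- An mm-space: a complete separable metric space with a Borel probability measure. -/
structure MMSpace where
  pts : Type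
  [metricSpace : MetricSpace pts]
  [completeSpace : CompleteSpace pts]
  [separableSpace : SeparableSpace pts]
  [measurableSpace : MeasurableSpace pts]
  [borelSpace : BorelSpace pts]
  μ : Measure pts
  [isProbabilityMeasure : IsProbabilityMeasure μ]

attribute [instance] MMSpace.metricSpace MMSpace.completeSpace MMSpace.separableSpace
  MMSpace.measurableSpace MMSpace.borelSpace MMSpace.isProbabilityMeasure

/-- The support of the measure of an mm-space. -/
def supp (X : MMSpace) : Set X.pts := X.μ.support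

/-- Isomorphism of mm-spaces: an isometry between the supports of the measures which maps the one
measure (restricted to its support) to the other. -/
def Iso (X Y : MMSpace) : Prop :=
  ∃ f : supp X ≃ᵢ supp Y,
    Measure.map f (X.μ.comap Subtype.val) = Y.μ.comap Subtype.val

theorem Iso.refl (X : MMSpace) : Iso X X :=
  ⟨IsometryEquiv.refl _, Measure.map_id⟩

theorem Iso.symm {X Y : MMSpace} (h : Iso X Y) : Iso Y X := by
  obtain ⟨f, hf⟩ := h
  refine ⟨f.symm, ?_⟩
  rw [← hf, Measure.map_map f.symm.continuous.measurable f.continuous.measurable]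
  have : (f.symm ∘ f : supp X → supp X) = id := by
    ext x
    simp
  rw [this, Measure.map_id]

theorem Iso.trans {X Y Z : MMSpace} (h : Iso X Y) (h' : Iso Y Z) : Iso X Z := by
  obtain ⟨f, hf⟩ := h
  obtain ⟨g, hg⟩ := h'
  refine ⟨f.trans g, ?_⟩
  rw [← hg, ← hf, Measure.map_map g.continuous.measurable f.continuous.measurable]
  rfl

instance mmSetoid : Setoid MMSpace := ⟨Iso, Iso.refl, Iso.symm, Iso.trans⟩

/-- The set of isomorphism classes of mm-spaces. -/
def MM : Type 1 := Quotient mmSetoid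

/-- The interval `[0,1)`. -/
abbrev I : Type := Ico (0 : ℝ) 1

/-- Lebesgue measure on `[0,1)`. -/
noncomputable def leb : Measure I := Measure.comap Subtype.val volume

/-- Parameters of an mm-space. -/
def IsParameter (X : MMSpace) (φ : I → X.pts) : Prop :=
  Measurable φ ∧ Measure.map φ leb = X.μ

/-- The condition on `ε` in the definition of the box distance. -/
def BoxLe (X Y : MMSpace) (ε : ℝ) : Prop :=
  0 ≤ ε ∧ ∃ (φ : I → X.pts) (ψ : I → Y.pts), IsParameter X φ ∧ IsParameter Y ψ ∧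
    ∃ I₀ : Set I, MeasurableSet I₀ ∧ ENNReal.ofReal (1 - ε) ≤ leb I₀ ∧
      ∀ s ∈ I₀, ∀ t ∈ I₀, |dist (φ s) (φ t) - dist (ψ s) (ψ t)| ≤ ε

/-- The box distance of two mm-spaces, the infimum of all `ε` as above. -/
noncomputable def box (X Y : MMSpace) : ℝ≥0∞ :=
  ⨅ (ε : ℝ) (_ : BoxLe X Y ε), ENNReal.ofReal ε

theorem BoxLe.symm {X Y : MMSpace} {ε : ℝ} (h : BoxLe X Y ε) : BoxLe Y X ε := by
  obtain ⟨h0, φ, ψ, hφ, hψ, I₀, hI, hv, hd⟩ := h
  refine ⟨h0, ψ, φ, hψ, hφ, I₀, hI, hv, fun s hs t ht => ?_⟩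
  rw [abs_sub_comm]
  exact hd s hs t ht

theorem box_symm (X Y : MMSpace) : box X Y = box Y X := by
  unfold box
  refine iInf_congr fun ε => ?_
  refine iInf_congr_Prop ⟨BoxLe.symm, BoxLe.symm⟩ fun _ => rfl

theorem measure_compl_supp (X : MMSpace) : X.μ (supp X)ᶜ = 0 :=
  Measure.measure_compl_support

theorem measurableSet_supp (X : MMSpace) : MeasurableSet (supp X) :=
  Measure.isClosed_support.measurableSet

theorem map_comap_supp (X : MMSpace) :
    Measure.map (Subtype.val : supp X → X.pts) (X.μ.comap Subtype.val) = X.μ := by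
  rw [(MeasurableEmbedding.subtype_coe (measurableSet_supp X)).map_comap, Subtype.range_coe]
  apply Measure.restrict_eq_self_of_ae_mem
  rw [ae_iff]
  exact measure_compl_supp X

theorem nonempty_pts (X : MMSpace) : Nonempty X.pts := by
  by_contra h
  rw [not_nonempty_iff] at h
  have h1 := measure_univ (μ := X.μ)
  rw [univ_eq_empty_iff.2 h, measure_empty] at h1
  exact zero_ne_one h1

/-- An isomorphism gives a measurable map between the spaces that preserves the measures and the
distances on the support. -/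
theorem Iso.exists_map {X Y : MMSpace} (h : Iso X Y) :
    ∃ g : X.pts → Y.pts, Measurable g ∧ Measure.map g X.μ = Y.μ ∧
      ∀ x ∈ supp X, ∀ y ∈ supp X, dist (g x) (g y) = dist x y := by
  classical
  obtain ⟨f, hf⟩ := h
  obtain ⟨y0⟩ := nonempty_pts Y
  let g : X.pts → Y.pts := fun x => if h : x ∈ supp X then (f ⟨x, h⟩ : Y.pts) else y0
  have hg : Measurable g := by
    exact Measurable.dite (s := supp X) (f := fun x => (f x : Y.pts)) (g := fun _ => y0)
      (measurable_subtype_coe.comp f.continuous.measurable) measurable_const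
      (measurableSet_supp X)
  have hgval : ∀ x : supp X, g x = f x := fun x => dif_pos x.2
  refine ⟨g, hg, ?_, ?_⟩
  · rw [← map_comap_supp X, Measure.map_map hg measurable_subtype_coe, ← map_comap_supp Y, ← hf,
      Measure.map_map measurable_subtype_coe f.continuous.measurable]
    congr 1
    ext x
    exact hgval x
  · intro x hx y hy
    rw [hgval ⟨x, hx⟩, hgval ⟨y, hy⟩, ← Subtype.dist_eq, f.dist_eq, Subtype.dist_eq]

theorem BoxLe.iso_left {X X' Y : MMSpace} {ε : ℝ} (hX : Iso X X') (h : BoxLe X Y ε) :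
    BoxLe X' Y ε := by
  obtain ⟨g, hg, hgm, hgd⟩ := hX.exists_map
  obtain ⟨h0, φ, ψ, hφ, hψ, I₀, hI, hv, hd⟩ := h
  refine ⟨h0, g ∘ φ, ψ, ⟨hg.comp hφ.1, ?_⟩, hψ, I₀ ∩ φ ⁻¹' (supp X),
    hI.inter (hφ.1 (measurableSet_supp X)), ?_, ?_⟩
  · rw [← Measure.map_map hg hφ.1, hφ.2, hgm]
  · refine hv.trans ?_
    have h1 : leb (φ ⁻¹' (supp X)ᶜ) = 0 := by
      rw [← Measure.map_apply hφ.1 (measurableSet_supp X).compl, hφ.2]
      exact measure_compl_supp X
    have h2 : I₀ ⊆ (I₀ ∩ φ ⁻¹' (supp X)) ∪ φ ⁻¹' (supp X)ᶜ := by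
      intro s hs
      by_cases h : φ s ∈ supp X
      · exact Or.inl ⟨hs, h⟩
      · exact Or.inr h
    calc leb I₀ ≤ leb ((I₀ ∩ φ ⁻¹' (supp X)) ∪ φ ⁻¹' (supp X)ᶜ) := measure_mono h2
      _ ≤ leb (I₀ ∩ φ ⁻¹' (supp X)) + leb (φ ⁻¹' (supp X)ᶜ) := measure_union_le _ _
      _ = leb (I₀ ∩ φ ⁻¹' (supp X)) := by rw [h1, add_zero]
  · intro s hs t ht
    show |dist (g (φ s)) (g (φ t)) - dist (ψ s) (ψ t)| ≤ ε
    rw [hgd _ hs.2 _ ht.2]
    exact hd s hs.1 t ht.1

theorem box_iso_left {X X' Y : MMSpace} (hX : Iso X X') : box X Y = box X' Y := by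
  unfold box
  refine iInf_congr fun ε => ?_
  exact iInf_congr_Prop ⟨BoxLe.iso_left hX, BoxLe.iso_left hX.symm⟩ fun _ => rfl

/-- The box distance on the set of isomorphism classes. -/
noncomputable def boxDist : MM → MM → ℝ≥0∞ :=
  Quotient.lift₂ box (by
    intro X Y X' Y' hX hY
    rw [box_iso_left hX, box_symm, box_iso_left hY, box_symm])

/-- The topology of the box distance on the set of isomorphism classes. -/
instance : TopologicalSpace MM where
  IsOpen O := ∀ x ∈ O, ∃ ε > (0 : ℝ≥0∞), ∀ y, boxDist x y < ε → y ∈ O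
  isOpen_univ := fun _ _ => ⟨1, one_pos, fun _ _ => trivial⟩
  isOpen_inter := by
    intro O P hO hP x hx
    obtain ⟨ε, hε, h⟩ := hO x hx.1
    obtain ⟨δ, hδ, h'⟩ := hP x hx.2
    exact ⟨min ε δ, lt_min hε hδ, fun y hy => ⟨h y (lt_of_lt_of_le hy (min_le_left _ _)),
      h' y (lt_of_lt_of_le hy (min_le_right _ _))⟩⟩
  isOpen_sUnion := by
    intro S hS x hx
    obtain ⟨O, hOS, hxO⟩ := hx
    obtain ⟨ε, hε, h⟩ := hS O hOS x hxO
    exact ⟨ε, hε, fun y hy => ⟨O, hOS, h y hy⟩⟩

/-! ### Covering a large part of the space by finitely many small sets -/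

/-- A subset of measure at least `m` is covered by `n` measurable sets of diameter at most `r`. -/
def SC (X : MMSpace) (n : ℕ) (r m : ℝ) : Prop :=
  ∃ E : Fin n → Set X.pts, (∀ i, MeasurableSet (E i)) ∧
    (∀ i, ∀ a ∈ E i, ∀ b ∈ E i, dist a b ≤ r) ∧ ENNReal.ofReal m ≤ X.μ (⋃ i, E i)

theorem SC.mono {X : MMSpace} {n : ℕ} {r r' m m' : ℝ} (h : SC X n r m) (hr : r ≤ r')
    (hm : m' ≤ m) : SC X n r' m' := by
  obtain ⟨E, hE, hd, hmu⟩ := h
  exact ⟨E, hE, fun i a ha b hb => (hd i a ha b hb).trans hr,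
    (ENNReal.ofReal_le_ofReal hm).trans hmu⟩

theorem SC.mono_nat {X : MMSpace} {n n' : ℕ} {r m : ℝ} (h : SC X n r m) (hn : n ≤ n') :
    SC X n' r m := by
  classical
  obtain ⟨E, hE, hd, hmu⟩ := h
  refine ⟨fun i => if h : (i : ℕ) < n then E ⟨i, h⟩ else ∅, ?_, ?_, ?_⟩
  · intro i
    dsimp only
    by_cases h : (i : ℕ) < n
    · rw [dif_pos h]
      exact hE _
    · rw [dif_neg h]
      exact MeasurableSet.empty
  · intro i a ha b hb
    dsimp only at ha hb
    by_cases h : (i : ℕ) < n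
    · rw [dif_pos h] at ha hb
      exact hd _ a ha b hb
    · rw [dif_neg h] at ha
      exact ha.elim
  · refine hmu.trans (measure_mono (iUnion_subset fun i => ?_))
    refine subset_iUnion_of_subset ⟨i, lt_of_lt_of_le i.2 hn⟩ ?_
    rw [dif_pos i.2]

/-- Transfer of small covers. -/
theorem SC.transfer {X Y : MMSpace} {Ω : Type} [MeasurableSpace Ω] (ν : Measure Ω)
    {φ : Ω → X.pts} {ψ : Ω → Y.pts} (hφ : Measurable φ) (hψ : Measurable ψ)
    (hφm : Measure.map φ ν = X.μ) (hψm : Measure.map ψ ν = Y.μ) {Ω₀ : Set Ω}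
    (hΩ : MeasurableSet Ω₀) {ε : ℝ} (hε : 0 ≤ ε) (hv : ENNReal.ofReal (1 - ε) ≤ ν Ω₀)
    (hd : ∀ s ∈ Ω₀, ∀ t ∈ Ω₀, dist (ψ s) (ψ t) ≤ dist (φ s) (φ t) + ε) {n : ℕ} {r m : ℝ}
    (h : SC X n r m) : SC Y n (r + ε) (m - ε) := by
  obtain ⟨E, hE, hEd, hmu⟩ := h
  refine ⟨fun i => closure (ψ '' (Ω₀ ∩ φ ⁻¹' (E i))), fun i => isClosed_closure.measurableSet,
    ?_, ?_⟩
  · intro i
    have hcl : ∀ a ∈ closure (ψ '' (Ω₀ ∩ φ ⁻¹' (E i))), ∀ b ∈ closure (ψ '' (Ω₀ ∩ φ ⁻¹' (E i))),
        dist a b ≤ r + ε := by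
      intro a ha b hb
      have hclosed : IsClosed {p : Y.pts × Y.pts | dist p.1 p.2 ≤ r + ε} :=
        isClosed_le (continuous_fst.dist continuous_snd) continuous_const
      have hsub : (ψ '' (Ω₀ ∩ φ ⁻¹' (E i))) ×ˢ (ψ '' (Ω₀ ∩ φ ⁻¹' (E i))) ⊆
          {p : Y.pts × Y.pts | dist p.1 p.2 ≤ r + ε} := by
        rintro ⟨_, _⟩ ⟨⟨s, hs, rfl⟩, ⟨t, ht, rfl⟩⟩
        exact (hd s hs.1 t ht.1).trans (by linarith [hEd i _ hs.2 _ ht.2])
      have := closure_minimal hsub hclosed
      rw [closure_prod_eq] at this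
      exact this (mk_mem_prod ha hb)
    exact hcl
  · have hprob : IsProbabilityMeasure ν := by
      constructor
      have : ν univ = X.μ univ := by
        rw [← hφm, Measure.map_apply hφ MeasurableSet.univ, preimage_univ]
      rw [this, measure_univ]
    have h1 : ψ ⁻¹' (⋃ i, closure (ψ '' (Ω₀ ∩ φ ⁻¹' (E i)))) ⊇ φ ⁻¹' (⋃ i, E i) ∩ Ω₀ := by
      rintro s ⟨hs, hs0⟩
      rw [preimage_iUnion, mem_iUnion] at hs
      obtain ⟨i, hi⟩ := hs
      exact mem_iUnion.2 ⟨i, subset_closure ⟨s, ⟨hs0, hi⟩, rfl⟩⟩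
    have h2 : ν (φ ⁻¹' (⋃ i, E i)) = X.μ (⋃ i, E i) := by
      rw [← hφm, Measure.map_apply hφ (MeasurableSet.iUnion hE)]
    have h3 : Y.μ (⋃ i, closure (ψ '' (Ω₀ ∩ φ ⁻¹' (E i)))) =
        ν (ψ ⁻¹' (⋃ i, closure (ψ '' (Ω₀ ∩ φ ⁻¹' (E i))))) := by
      rw [← hψm, Measure.map_apply hψ (MeasurableSet.iUnion fun i =>
        isClosed_closure.measurableSet)]
    rw [h3]
    refine le_trans ?_ (measure_mono h1)
    have h4 : ν Ω₀ᶜ ≤ ENNReal.ofReal ε := by
      rw [prob_compl_eq_one_sub hΩ]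
      rw [tsub_le_iff_right]
      by_cases hε1 : ε ≤ 1
      · calc (1 : ℝ≥0∞) = ENNReal.ofReal (ε + (1 - ε)) := by simp
          _ = ENNReal.ofReal ε + ENNReal.ofReal (1 - ε) :=
            ENNReal.ofReal_add hε (by linarith)
          _ ≤ ENNReal.ofReal ε + ν Ω₀ := by gcongr
      · refine le_trans ?_ le_self_add
        rw [← ENNReal.ofReal_one]
        exact ENNReal.ofReal_le_ofReal (by linarith)
    have h5 : ν (φ ⁻¹' (⋃ i, E i)) ≤ ν (φ ⁻¹' (⋃ i, E i) ∩ Ω₀) + ENNReal.ofReal ε := by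
      calc ν (φ ⁻¹' (⋃ i, E i)) ≤ ν ((φ ⁻¹' (⋃ i, E i) ∩ Ω₀) ∪ Ω₀ᶜ) := by
            apply measure_mono
            intro s hs
            by_cases h : s ∈ Ω₀
            · exact Or.inl ⟨hs, h⟩
            · exact Or.inr h
        _ ≤ ν (φ ⁻¹' (⋃ i, E i) ∩ Ω₀) + ν Ω₀ᶜ := measure_union_le _ _
        _ ≤ _ := by gcongr
    rw [ENNReal.ofReal_sub _ hε, tsub_le_iff_right]
    rw [h2] at h5
    exact hmu.trans h5

theorem SC.iso {X Y : MMSpace} (h : Iso X Y) {n : ℕ} {r m : ℝ} (hX : SC X n r m) :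
    SC Y n r m := by
  obtain ⟨g, hg, hgm, hgd⟩ := h.exists_map
  have := SC.transfer (Y := Y) X.μ (φ := id) (ψ := g) measurable_id hg Measure.map_id hgm
    (measurableSet_supp X) (ε := 0) le_rfl (by
      rw [sub_zero, ENNReal.ofReal_one]
      have h1 : X.μ univ ≤ X.μ (supp X) + X.μ (supp X)ᶜ := by
        rw [← union_compl_self (supp X)]
        exact measure_union_le _ _
      rwa [measure_univ, measure_compl_supp, add_zero] at h1)
    (fun s hs t ht => by rw [hgd s hs t ht]; simp) hX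
  simpa using this

theorem SC.box {X Y : MMSpace} {δ : ℝ} (h : box X Y < ENNReal.ofReal δ) {n : ℕ} {r m : ℝ}
    (hX : SC X n r m) : SC Y n (r + δ) (m - δ) := by
  unfold NotHausdorff.box at h
  rw [iInf_lt_iff] at h
  obtain ⟨ε, hε⟩ := h
  rw [iInf_lt_iff] at hε
  obtain ⟨⟨h0, φ, ψ, hφ, hψ, I₀, hI, hv, hd⟩, hlt⟩ := hε
  have hεδ : ε ≤ δ := by
    have := (ENNReal.ofReal_lt_ofReal_iff_of_nonneg h0).1 hlt
    exact this.le
  have := SC.transfer leb hφ.1 hψ.1 hφ.2 hψ.2 hI h0 hv (fun s hs t ht => by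
    have := (abs_le.1 (hd s hs t ht)).1
    linarith) hX
  exact this.mono (by linarith) (by linarith)

/-- The condition `SC` on isomorphism classes. -/
def SCq (x : MM) (n : ℕ) (r m : ℝ) : Prop :=
  Quotient.lift (fun X : MMSpace => SC X n r m)
    (fun _ _ h => propext ⟨SC.iso h, SC.iso (Iso.symm h)⟩) x

theorem SCq.mono {x : MM} {n : ℕ} {r r' m m' : ℝ} (h : SCq x n r m) (hr : r ≤ r')
    (hm : m' ≤ m) : SCq x n r' m' := by
  induction x using Quotient.inductionOn with
  | h X => exact SC.mono h hr hm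

theorem SCq.mono_nat {x : MM} {n n' : ℕ} {r m : ℝ} (h : SCq x n r m) (hn : n ≤ n') :
    SCq x n' r m := by
  induction x using Quotient.inductionOn with
  | h X => exact SC.mono_nat h hn

theorem SCq.box {x y : MM} {δ : ℝ} (h : boxDist x y < ENNReal.ofReal δ) {n : ℕ} {r m : ℝ}
    (hX : SCq x n r m) : SCq y n (r + δ) (m - δ) := by
  induction x using Quotient.inductionOn with
  | h X =>
    induction y using Quotient.inductionOn with
    | h Y => exact SC.box h hX

theorem boxDist_symm (x y : MM) : boxDist x y = boxDist y x := by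
  induction x using Quotient.inductionOn with
  | h X =>
    induction y using Quotient.inductionOn with
    | h Y => exact box_symm X Y

/-! ### The closed sets `A k` and the open sets `U k n` -/

/-- A sequence of positive numbers that decreases to zero. -/
noncomputable def e (k : ℕ) : ℝ := 1 / (k + 1)

theorem e_pos (k : ℕ) : 0 < e k := by
  unfold e
  positivity

theorem e_le_one (k : ℕ) : e k ≤ 1 := by
  unfold e
  rw [div_le_one (by positivity)]
  have : (0 : ℝ) ≤ k := Nat.cast_nonneg k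
  linarith

theorem e_anti : Antitone e := by
  intro a b hab
  unfold e
  apply one_div_le_one_div_of_le
  · positivity
  · have : (a : ℝ) ≤ b := Nat.cast_le.2 hab
    linarith

theorem e_lt {δ : ℝ} (hδ : 0 < δ) : ∃ k, e k < δ := exists_nat_one_div_lt hδ

/-- The classes that are `e k`-close to a point. -/
def A (k : ℕ) : Set MM := {x | ∀ ε > e k, SCq x 1 ε (1 - ε)}

/-- The classes for which `n` sets of diameter less than `1/2` cover more than `1 - e k / 2`. -/
def U (k n : ℕ) : Set MM := {x | ∃ r < (1 : ℝ) / 2, ∃ m > 1 - e k / 2, SCq x n r m}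

theorem isClosed_A (k : ℕ) : IsClosed (A k) := by
  rw [← isOpen_compl_iff]
  intro x hx
  have hx' : ¬ ∀ ε > e k, SCq x 1 ε (1 - ε) := hx
  push Not at hx'
  obtain ⟨ε, hε, hns⟩ := hx'
  refine ⟨ENNReal.ofReal ((ε - e k) / 2), ENNReal.ofReal_pos.2 (by linarith), ?_⟩
  intro y hy hyA
  apply hns
  have h1 : SCq y 1 (e k + (ε - e k) / 2) (1 - (e k + (ε - e k) / 2)) := hyA _ (by linarith)
  rw [boxDist_symm] at hy
  exact (SCq.box hy h1).mono (by linarith) (by linarith)

theorem isOpen_U (k n : ℕ) : IsOpen (U k n) := by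
  rintro x ⟨r, hr, m, hm, h⟩
  refine ⟨ENNReal.ofReal (min (1 / 2 - r) (m - (1 - e k / 2)) / 2),
    ENNReal.ofReal_pos.2 (half_pos (lt_min (by linarith) (by linarith))), ?_⟩
  intro y hy
  have h1 := min_le_left (1 / 2 - r) (m - (1 - e k / 2))
  have h2 := min_le_right (1 / 2 - r) (m - (1 - e k / 2))
  exact ⟨_, by linarith, _, by linarith, SCq.box hy h⟩

theorem U_mono (k : ℕ) : Monotone (U k) := by
  rintro n n' hn x ⟨r, hr, m, hm, h⟩
  exact ⟨r, hr, m, hm, h.mono_nat hn⟩

theorem A_anti : Antitone A := by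
  intro k k' hk x hx ε hε
  exact hx ε (lt_of_le_of_lt (e_anti hk) hε)

/-- Every class is in `U k n` for some `n`. -/
theorem U_cover (k : ℕ) (x : MM) : ∃ n, x ∈ U k n := by
  induction x using Quotient.inductionOn with
  | h X =>
    obtain ⟨x0⟩ := nonempty_pts X
    have : Nonempty X.pts := ⟨x0⟩
    let d : ℕ → X.pts := denseSeq X.pts
    let B : ℕ → Set X.pts := fun i => Metric.closedBall (d i) (1 / 8)
    have hB : ⋃ i, B i = univ := by
      refine eq_univ_of_forall fun y => ?_
      obtain ⟨_, ⟨i, rfl⟩, hi⟩ := Metric.mem_closure_iff.1 (denseRange_denseSeq X.pts y) (1 / 8)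
        (by norm_num)
      exact mem_iUnion.2 ⟨i, by rw [Metric.mem_closedBall]; exact hi.le⟩
    have h1 : Tendsto (fun n => X.μ (accumulate B n)) atTop (𝓝 (X.μ (⋃ i, B i))) :=
      tendsto_measure_iUnion_accumulate
    rw [hB, measure_univ] at h1
    have hek := e_pos k
    have h2 : ENNReal.ofReal (1 - e k / 4) < 1 := by
      rw [← ENNReal.ofReal_one, ENNReal.ofReal_lt_ofReal_iff one_pos]
      linarith
    obtain ⟨n, hn⟩ := (h1.eventually (lt_mem_nhds h2)).exists
    refine ⟨n + 1, 1 / 4, by norm_num, 1 - e k / 4, by linarith, ?_⟩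
    refine ⟨fun i => B i, fun i => Metric.isClosed_closedBall.measurableSet, ?_, ?_⟩
    · intro i a ha b hb
      have ha' : dist a (d i) ≤ 1 / 8 := ha
      have hb' : dist b (d i) ≤ 1 / 8 := hb
      have := dist_triangle_right a b (d i)
      linarith
    · refine hn.le.trans (measure_mono ?_)
      intro y hy
      rw [mem_accumulate] at hy
      obtain ⟨i, hi, hy⟩ := hy
      exact mem_iUnion.2 ⟨⟨i, by omega⟩, hy⟩

/-- The one-point mm-space. -/
noncomputable def pointSpace : MMSpace where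
  pts := Unit
  μ := Measure.dirac ()

/-- The class of the one-point mm-space. -/
noncomputable def star : MM := Quotient.mk _ pointSpace

theorem star_mem_A (k : ℕ) : star ∈ A k := by
  intro ε hε
  show SC pointSpace 1 ε (1 - ε)
  have hek := e_pos k
  refine ⟨fun _ => univ, fun _ => MeasurableSet.univ, ?_, ?_⟩
  · intro _ a _ b _
    have : a = b := Subsingleton.elim (α := Unit) a b
    rw [this, dist_self]
    linarith
  · rw [iUnion_const, measure_univ, ← ENNReal.ofReal_one]
    exact ENNReal.ofReal_le_ofReal (by linarith)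

/-- If the support is a single point, the space is isomorphic to the one-point space. -/
theorem iso_point {X : MMSpace} (h : (supp X).Subsingleton) : Iso X pointSpace := by
  have hne : (supp X).Nonempty := Measure.nonempty_support (IsProbabilityMeasure.ne_zero _)
  have hsupp : supp pointSpace = univ := by
    have h1 : (supp pointSpace).Nonempty :=
      Measure.nonempty_support (IsProbabilityMeasure.ne_zero _)
    obtain ⟨a, ha⟩ := h1
    refine eq_univ_of_forall fun b => ?_
    have : a = b := Subsingleton.elim (α := Unit) a b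
    exact this ▸ ha
  have h1 : Subsingleton (supp X) := ⟨fun a b => Subtype.ext (h a.2 b.2)⟩
  have h2 : Subsingleton (supp pointSpace) :=
    ⟨fun a b => Subtype.ext (Subsingleton.elim (α := Unit) _ _)⟩
  obtain ⟨x0, hx0⟩ := hne
  let f : supp X ≃ᵢ supp pointSpace :=
    { toFun := fun _ => ⟨(), by rw [hsupp]; trivial⟩
      invFun := fun _ => ⟨x0, hx0⟩
      left_inv := fun a => Subsingleton.elim _ _
      right_inv := fun a => Subsingleton.elim _ _
      isometry_toFun := isometry_subsingleton }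
  refine ⟨f, ?_⟩
  have htot : ∀ Z : MMSpace, (Z.μ.comap (Subtype.val : supp Z → Z.pts)) univ = 1 := by
    intro Z
    have := congrArg (fun m : Measure Z.pts => m univ) (map_comap_supp Z)
    simp only [measure_univ] at this
    rwa [Measure.map_apply measurable_subtype_coe MeasurableSet.univ, preimage_univ] at this
  ext s hs
  rcases s.eq_empty_or_nonempty with rfl | hsne
  · simp
  · have hs1 : s = univ := by
      obtain ⟨a, ha⟩ := hsne
      refine eq_univ_of_forall fun b => ?_
      exact (Subsingleton.elim a b) ▸ ha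
    rw [hs1, Measure.map_apply f.continuous.measurable MeasurableSet.univ, preimage_univ, htot,
      htot]

theorem iInter_A : ⋂ k, A k = {star} := by
  apply Subset.antisymm
  · intro x hx
    rw [mem_iInter] at hx
    induction x using Quotient.inductionOn with
    | h X =>
      refine (Quotient.sound (iso_point ?_) : (Quotient.mk mmSetoid X : MM) = star)
      intro a ha b hb
      by_contra hne
      have hab : 0 < dist a b := dist_pos.2 hne
      have hBa : 0 < X.μ (Metric.ball a (dist a b / 3)) :=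
        (Measure.mem_support_iff_forall a).1 ha _ (Metric.ball_mem_nhds a (by linarith))
      have hBb : 0 < X.μ (Metric.ball b (dist a b / 3)) :=
        (Measure.mem_support_iff_forall b).1 hb _ (Metric.ball_mem_nhds b (by linarith))
      obtain ⟨m, hm0, hmlt⟩ : ∃ m : ℝ, 0 < m ∧
          ENNReal.ofReal m < min (X.μ (Metric.ball a (dist a b / 3)))
            (X.μ (Metric.ball b (dist a b / 3))) := by
        obtain ⟨m, hm0, hm⟩ := ENNReal.lt_iff_exists_real_btwn.1 (lt_min hBa hBb)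
        refine ⟨m, ?_, hm.2⟩
        exact ENNReal.ofReal_pos.1 hm.1
      obtain ⟨k, hk⟩ := e_lt (lt_min (lt_min hm0 (show 0 < dist a b / 3 by linarith))
        (show (0 : ℝ) < 1 by norm_num))
      obtain ⟨ε, hε1, hε2⟩ := exists_between hk
      have hεm : ε < m := lt_of_lt_of_le hε2 ((min_le_left _ _).trans (min_le_left _ _))
      have hεd : ε < dist a b / 3 :=
        lt_of_lt_of_le hε2 ((min_le_left _ _).trans (min_le_right _ _))
      have hε0 : 0 < ε := (e_pos k).trans hε1
      have hε1' : ε < 1 := lt_of_lt_of_le hε2 (min_le_right _ _)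
      obtain ⟨E, hE, hEd, hmu⟩ : SC X 1 ε (1 - ε) := hx k ε hε1
      have hmeet : ∀ c, ENNReal.ofReal m < X.μ (Metric.ball c (dist a b / 3)) →
          ∃ y, y ∈ E 0 ∧ dist y c < dist a b / 3 := by
        intro c hc
        by_contra hcon
        push Not at hcon
        have hsub : Metric.ball c (dist a b / 3) ⊆ (⋃ i, E i)ᶜ := by
          intro y hy hy'
          obtain ⟨i, hi⟩ := mem_iUnion.1 hy'
          have hi0 : i = 0 := Subsingleton.elim _ _
          rw [hi0] at hi
          exact absurd (Metric.mem_ball.1 hy) (not_lt.2 (hcon y hi))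
        have h1 : X.μ (⋃ i, E i)ᶜ ≤ ENNReal.ofReal ε := by
          rw [prob_compl_eq_one_sub (MeasurableSet.iUnion hE), tsub_le_iff_right]
          calc (1 : ℝ≥0∞) = ENNReal.ofReal (ε + (1 - ε)) := by simp
            _ = ENNReal.ofReal ε + ENNReal.ofReal (1 - ε) :=
              ENNReal.ofReal_add hε0.le (by linarith)
            _ ≤ ENNReal.ofReal ε + X.μ (⋃ i, E i) := by gcongr
        have h2 := (hc.trans_le (measure_mono hsub)).trans_le h1
        rw [ENNReal.ofReal_lt_ofReal_iff hε0] at h2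
        linarith
      obtain ⟨y, hyE, hya⟩ := hmeet a (hmlt.trans_le (min_le_left _ _))
      obtain ⟨z, hzE, hzb⟩ := hmeet b (hmlt.trans_le (min_le_right _ _))
      have h1 := hEd 0 y hyE z hzE
      have h2 : dist a b ≤ dist a y + dist y z + dist z b := dist_triangle4 a y z b
      rw [dist_comm a y] at h2
      linarith
  · rw [singleton_subset_iff, mem_iInter]
    exact star_mem_A

/-! ### The spaces that are close to a point but need many small sets -/

theorem leb_apply {S : Set ℝ} (_hS : MeasurableSet S) :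
    leb {s : I | (s : ℝ) ∈ S} = volume (Ico (0 : ℝ) 1 ∩ S) := by
  unfold leb
  rw [comap_subtype_coe_apply measurableSet_Ico]
  congr 1
  ext x
  constructor
  · rintro ⟨y, hy, rfl⟩
    exact ⟨y.2, hy⟩
  · rintro ⟨h1, h2⟩
    exact ⟨⟨x, h1⟩, h2, rfl⟩

instance : IsProbabilityMeasure leb := by
  constructor
  have h1 : (univ : Set I) = {s : I | (s : ℝ) ∈ (univ : Set ℝ)} := rfl
  rw [h1, leb_apply MeasurableSet.univ, inter_univ, Real.volume_Ico]
  norm_num

/-- The map that sends `[0, 1 - ε)` to `0` and the rest of the interval to `⌊M s⌋`. -/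
noncomputable def mapW (ε : ℝ) (M : ℕ) (s : I) : ℕ :=
  if (s : ℝ) < 1 - ε then 0 else ⌊(M : ℝ) * s⌋₊

theorem measurable_mapW (ε : ℝ) (M : ℕ) : Measurable (mapW ε M) := by
  unfold mapW
  refine Measurable.ite ?_ measurable_const ?_
  · exact measurableSet_lt measurable_subtype_coe measurable_const
  · exact (Nat.measurable_floor).comp (measurable_const.mul measurable_subtype_coe)

/-- The natural numbers with the image of Lebesgue measure under `mapW`. -/
noncomputable def W (ε : ℝ) (M : ℕ) : MMSpace where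
  pts := ℕ
  μ := Measure.map (mapW ε M) leb
  isProbabilityMeasure :=
    Measure.isProbabilityMeasure_map (measurable_mapW ε M).aemeasurable

theorem leb_lt {ε : ℝ} (h0 : 0 < ε) :
    leb {s : I | (s : ℝ) < 1 - ε} = ENNReal.ofReal (1 - ε) := by
  have h2 : {s : I | (s : ℝ) < 1 - ε} = {s : I | (s : ℝ) ∈ Iio (1 - ε)} := rfl
  rw [h2, leb_apply measurableSet_Iio]
  have h3 : Ico (0 : ℝ) 1 ∩ Iio (1 - ε) = Ico 0 (1 - ε) := by
    ext x
    constructor
    · rintro ⟨⟨ha, hb⟩, hc⟩
      exact ⟨ha, hc⟩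
    · rintro ⟨ha, hc⟩
      exact ⟨⟨ha, by linarith⟩, hc⟩
  rw [h3, Real.volume_Ico, sub_zero]

theorem boxDist_W {ε : ℝ} (h0 : 0 < ε) (_h1 : ε ≤ 1) (M : ℕ) :
    boxDist star (Quotient.mk _ (W ε M)) ≤ ENNReal.ofReal ε := by
  show box pointSpace (W ε M) ≤ ENNReal.ofReal ε
  unfold box
  refine iInf₂_le ε ?_
  refine ⟨h0.le, fun _ => (), mapW ε M, ⟨measurable_const, ?_⟩, ⟨measurable_mapW ε M, rfl⟩,
    {s : I | (s : ℝ) < 1 - ε}, measurableSet_lt measurable_subtype_coe measurable_const,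
    (leb_lt h0).ge, ?_⟩
  · show Measure.map (fun _ => ()) leb = Measure.dirac ()
    rw [Measure.map_const, measure_univ, one_smul]
  · intro s hs t ht
    have hs' : mapW ε M s = 0 := if_pos hs
    have ht' : mapW ε M t = 0 := if_pos ht
    have key : |dist (() : Unit) () - dist (mapW ε M s : ℕ) (mapW ε M t : ℕ)| ≤ ε := by
      rw [hs', ht', dist_self, dist_self]
      simpa using h0.le
    exact key

theorem W_mem_A (k M : ℕ) : (Quotient.mk _ (W (e k) M) : MM) ∈ A k := by
  intro ε hε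
  show SC (W (e k) M) 1 ε (1 - ε)
  have hek := e_pos k
  refine ⟨fun _ => ({0} : Set ℕ), fun _ => MeasurableSet.singleton (α := ℕ) 0, ?_, ?_⟩
  · intro _ a ha b hb
    have : a = b := (mem_singleton_iff.1 ha).trans (mem_singleton_iff.1 hb).symm
    rw [this, dist_self]
    linarith
  · show ENNReal.ofReal (1 - ε) ≤ Measure.map (mapW (e k) M) leb (⋃ _ : Fin 1, ({0} : Set ℕ))
    rw [iUnion_const, Measure.map_apply (measurable_mapW _ _) (MeasurableSet.singleton 0)]
    calc ENNReal.ofReal (1 - ε) ≤ ENNReal.ofReal (1 - e k) :=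
          ENNReal.ofReal_le_ofReal (by linarith)
      _ = leb {s : I | (s : ℝ) < 1 - e k} := (leb_lt hek).symm
      _ ≤ _ := measure_mono fun s hs => if_pos hs

theorem leb_piece (ε : ℝ) {M : ℕ} (hM : 0 < M) {E : Set ℕ} (hE : E.Subsingleton) :
    leb {s : I | ¬ (s : ℝ) < 1 - ε ∧ mapW ε M s ∈ E} ≤ ENNReal.ofReal (1 / M) := by
  rcases E.eq_empty_or_nonempty with rfl | ⟨j, hj⟩
  · simp
  have hM' : (0 : ℝ) < M := Nat.cast_pos.2 hM
  have h1 : {s : I | ¬ (s : ℝ) < 1 - ε ∧ mapW ε M s ∈ E} ⊆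
      {s : I | (s : ℝ) ∈ Ico ((j : ℝ) / M) ((j + 1) / M)} := by
    rintro s ⟨hs, hs'⟩
    have h2 : mapW ε M s = j := hE hs' hj
    have h3 : mapW ε M s = ⌊(M : ℝ) * s⌋₊ := if_neg hs
    rw [h3] at h2
    have hnn : 0 ≤ (M : ℝ) * s := mul_nonneg hM'.le s.2.1
    obtain ⟨h4, h5⟩ := (Nat.floor_eq_iff hnn).1 h2
    refine ⟨?_, ?_⟩
    · rw [div_le_iff₀ hM']
      linarith
    · rw [lt_div_iff₀ hM']
      linarith
  refine (measure_mono h1).trans ?_
  rw [leb_apply measurableSet_Ico]
  refine (measure_mono inter_subset_right).trans ?_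
  rw [Real.volume_Ico]
  apply ENNReal.ofReal_le_ofReal
  rw [← sub_div]
  simp

theorem nat_one_le_dist {a b : ℕ} (hne : a ≠ b) : (1 : ℝ) ≤ dist a b := by
  rw [Nat.dist_eq]
  have h3 : (a : ℤ) - b ≠ 0 := sub_ne_zero.2 (by exact_mod_cast hne)
  have h4 := Int.one_le_abs h3
  exact_mod_cast h4

theorem W_notMem_U (k n : ℕ) : ∃ M, (Quotient.mk _ (W (e k) M) : MM) ∉ U k n := by
  have hek := e_pos k
  obtain ⟨M, hM⟩ := exists_nat_gt (2 * (n : ℝ) / e k)
  have hM0 : (0 : ℝ) < M := lt_of_le_of_lt (by positivity) hM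
  refine ⟨M, ?_⟩
  rintro ⟨r, hr, m, hm, h⟩
  obtain ⟨E, hE, hEd, hmu⟩ : SC (W (e k) M) n r m := h
  have hEs : ∀ i, (E i : Set ℕ).Subsingleton := by
    intro i a ha b hb
    by_contra hne
    have h1 : @dist ℕ _ a b ≤ r := hEd i a ha b hb
    have h2 : (1 : ℝ) ≤ @dist ℕ _ a b := nat_one_le_dist hne
    linarith
  have h1 : (W (e k) M).μ (⋃ i, E i) ≤ ENNReal.ofReal (1 - e k) + ∑ _i : Fin n,
      ENNReal.ofReal (1 / M) := by
    show Measure.map (mapW (e k) M) leb (⋃ i, (E i : Set ℕ)) ≤ _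
    rw [Measure.map_apply (measurable_mapW _ _) (MeasurableSet.of_discrete)]
    have hsub : mapW (e k) M ⁻¹' (⋃ i, (E i : Set ℕ)) ⊆ {s : I | (s : ℝ) < 1 - e k} ∪
        ⋃ i, {s : I | ¬ (s : ℝ) < 1 - e k ∧ mapW (e k) M s ∈ (E i : Set ℕ)} := by
      intro s hs
      by_cases h : (s : ℝ) < 1 - e k
      · exact Or.inl h
      · obtain ⟨i, hi⟩ := mem_iUnion.1 hs
        exact Or.inr (mem_iUnion.2 ⟨i, h, hi⟩)
    refine (measure_mono hsub).trans ((measure_union_le _ _).trans ?_)
    rw [leb_lt hek]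
    gcongr
    refine (measure_iUnion_fintype_le _ _).trans ?_
    exact Finset.sum_le_sum fun i _ => leb_piece (e k) (Nat.cast_pos.1 hM0) (hEs i)
  have h2 := hmu.trans h1
  rw [← ENNReal.ofReal_sum_of_nonneg (fun _ _ => by positivity),
    ← ENNReal.ofReal_add (by linarith [e_le_one k]) (by positivity)] at h2
  rw [ENNReal.ofReal_le_ofReal_iff (by
    have := e_le_one k
    have h3 : (0 : ℝ) ≤ ∑ _i : Fin n, 1 / (M : ℝ) := by positivity
    linarith)] at h2
  rw [Finset.sum_const, Finset.card_univ, Fintype.card_fin, nsmul_eq_mul] at h2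
  have h3 : (n : ℝ) * (1 / M) < e k / 2 := by
    rw [mul_one_div, div_lt_iff₀ hM0]
    rw [div_lt_iff₀ hek] at hM
    linarith
  linarith

/-- The topologization of Kuratowski-Painleve convergence on the closed subsets of the space of
mm-spaces with the box distance is not Hausdorff; in particular it is not metrizable. -/
theorem result : ¬ @T2Space (Closeds MM) (tauK MM) ∧
    ¬ @MetrizableSpace (Closeds MM) (tauK MM) := by
  have h : ¬ @T2Space (Closeds MM) (tauK MM) := by
    refine not_t2_tauK star A U isClosed_A A_anti iInter_A isOpen_U U_mono U_cover ?_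
    intro V hV hstar
    obtain ⟨δ, hδ, hV'⟩ := hV star hstar
    obtain ⟨η, hη0, hη⟩ := ENNReal.lt_iff_exists_real_btwn.1 hδ
    obtain ⟨K, hK⟩ := e_lt (ENNReal.ofReal_pos.1 hη.1)
    refine ⟨K, fun k hk n => ?_⟩
    obtain ⟨M, hM⟩ := W_notMem_U k n
    refine ⟨Quotient.mk _ (W (e k) M), ⟨W_mem_A k M, hM⟩, hV' _ ?_⟩
    refine (boxDist_W (e_pos k) (e_le_one k) M).trans_lt (lt_of_le_of_lt ?_ hη.2)
    exact ENNReal.ofReal_le_ofReal ((e_anti hk).trans hK.le)
  exact ⟨h, fun hm => h (@TopologicalSpace.t2Space_of_metrizableSpace _ (tauK MM) hm)⟩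

end Pool.Agent.Results.MP_3b4475_gt.NotHausdorff
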